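import Pool.Agent.H5.OR.Targets4
import Pool.Agent.H99.ORS.NB

/-!
# Board ors_modules, row QB: normal form of the relator `v^m w^(-n)`
-/

set_option autoImplicit false

open scoped Classical

namespace Pool.Agent.H45.ORS

open ORg

theorem pf_QB (LN : T_LN) : T_QB := by
  intro X Y _ _ v w m n hv hw
  obtain ⟨Xt, Zt, fXt, fZt, α, ut, k, hk, hαv, hut, hwt⟩ := LN Y v hv
  obtain ⟨Xf, Zf, fXf, fZf, β, uf, j, hj, hβw, huf, hwf⟩ := LN X w hw
  let X1 : Bool → Type := fun i => Bool.rec Xf Xt i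
  let Z1 : Bool → Type := fun i => Bool.rec Zf Zt i
  let u : ∀ i, FreeGroup (X1 i) := fun i => match i with
    | false => uf
    | true => ut
  obtain ⟨θ, h1, h2⟩ := Pool.Agent.H99.ORS.nb_iso (fun i => X1 i ⊕ Z1 i) α β
  refine ⟨k, j, X1, Z1, ?_, ?_, u, θ, hk, hj, ?_, ?_, ?_⟩
  · intro i
    cases i with
    | false => exact fXf
    | true => exact fXt
  · intro i
    cases i with
    | false => exact fZf
    | true => exact fZt
  · intro i
    cases i with
    | false => exact huf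
    | true => exact hut
  · intro i
    cases i with
    | false => exact hwf
    | true => exact hwt
  · have e1 : subW (Y := Empty) (X := fun i => X1 i ⊕ Z1 i) (fun i => fl (u i))
        (FreeGroup.of (Sum.inl true)) = FreeGroup.map
          (fun z => (Sum.inl ⟨true, z⟩ : (Σ i, X1 i ⊕ Z1 i) ⊕ Empty)) (fl ut) := by
      rw [subW, FreeGroup.lift_apply_of]
    have e2 : subW (Y := Empty) (X := fun i => X1 i ⊕ Z1 i) (fun i => fl (u i))
        (FreeGroup.of (Sum.inl false)) = FreeGroup.map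
          (fun z => (Sum.inl ⟨false, z⟩ : (Σ i, X1 i ⊕ Z1 i) ⊕ Empty)) (fl uf) := by
      rw [subW, FreeGroup.lift_apply_of]
    have e3 : θ (FreeGroup.map Sum.inr v) = (FreeGroup.map
        (fun z => (Sum.inl ⟨true, z⟩ : (Σ i, X1 i ⊕ Z1 i) ⊕ Empty)) (fl ut)) ^ k := by
      rw [h2, hαv, map_pow]
    have e4 : θ (FreeGroup.map Sum.inl w) = (FreeGroup.map
        (fun z => (Sum.inl ⟨false, z⟩ : (Σ i, X1 i ⊕ Z1 i) ⊕ Empty)) (fl uf)) ^ j := by
      rw [h1, hβw, map_pow]
    rw [rt, relT, map_mul, map_inv, map_zpow, map_zpow, e3, e4,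
      map_mul, map_inv, map_zpow, map_zpow, e1, e2, zpow_mul, zpow_mul, zpow_natCast,
      zpow_natCast]

end Pool.Agent.H45.ORS
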