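import Pool.Agent.H5.OR.Targets4
import Pool.Agent.H16.ORS.HK

/-!
# Board ors_modules, row QK: the classification of the groups `TP m n` with several marked
generators
-/

set_option autoImplicit false

open scoped Classical

namespace Pool.Agent.H45.ORS

open ORg

/-- the element `x^m` is central -/
theorem qk_cent (QH : T_QH) (m n : ℤ) (g : TP m n) :
    g * (tg true : TP m n) ^ m * g⁻¹ = tg true ^ m := by
  obtain ⟨h1, -, h3⟩ := QH m n
  have h4 : (MulAut.conj ((tg true : TP m n) ^ m)).toMonoidHom = MonoidHom.id (TP m n) := by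
    refine h3 (TP m n) _ _ ?_ ?_
    · show (tg true : TP m n) ^ m * tg true * (tg true ^ m)⁻¹ = tg true
      rw [← zpow_add_one, ← zpow_neg, ← zpow_add, add_comm m 1, add_neg_cancel_right, zpow_one]
    · show (tg true : TP m n) ^ m * tg false * (tg true ^ m)⁻¹ = tg false
      rw [h1, ← zpow_add_one, ← zpow_neg, ← zpow_add, add_comm n 1, add_neg_cancel_right, zpow_one]
  have h5 : (tg true : TP m n) ^ m * g * (tg true ^ m)⁻¹ = g := DFunLike.congr_fun h4 g
  rw [mul_inv_eq_iff_eq_mul] at h5 ⊢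
  exact h5.symm

/-- powers of `x^m` -/
theorem qk_key (QH : T_QH) (QS : T_QS) (m n : ℤ) (hm : 2 ≤ |m|) (hn : 2 ≤ |n|) (g h : TP m n)
    (a b : ℤ) (H : g * ((tg true : TP m n) ^ m) ^ a * g⁻¹ = h * (tg true ^ m) ^ b * h⁻¹) :
    a = b := by
  have h6 : ∀ (x : TP m n) (k : ℤ),
      x * ((tg true : TP m n) ^ m) ^ k * x⁻¹ = (tg true ^ m) ^ k := by
    intro x k
    rw [← conj_zpow, qk_cent QH m n x]
  rw [h6, h6] at H
  by_contra hab
  have h1 := (QS m n hm hn).2 true (m * (a - b)) (by
    refine mul_ne_zero ?_ (sub_ne_zero.2 hab)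
    rintro rfl
    norm_num at hm)
  apply h1
  rw [zpow_mul, zpow_sub, H, mul_inv_cancel]

theorem qk_sg (m m' : ℤ) (h : |m| = |m'|) : ∃ s : ℤ, (s = 1 ∨ s = -1) ∧ m = s * m' := by
  rcases abs_eq_abs.1 h with h1 | h1
  · exact ⟨1, Or.inl rfl, by rw [h1, one_mul]⟩
  · exact ⟨-1, Or.inr rfl, by rw [h1, neg_one_mul]⟩

/-- the sign condition, the first case -/
theorem qk_refl (QH : T_QH) (QS : T_QS) (m n m' n' : ℤ) (β : TP m n ≃* TP m' n')
    (hm' : 2 ≤ |m'|) (hn' : 2 ≤ |n'|) (hm : |m| = |m'|) (hn : |n| = |n'|) (a b : ℤ)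
    (g h : TP m' n') (h1 : β (tg true) = g * tg true ^ a * g⁻¹)
    (h2 : β (tg false) = h * tg false ^ b * h⁻¹) : a * m * n' = b * n * m' := by
  obtain ⟨s, hs, hs'⟩ := qk_sg m m' hm
  obtain ⟨u, hu, hu'⟩ := qk_sg n n' hn
  have h3 : β (tg true ^ m) = β (tg false ^ n) := by rw [(QH m n).1]
  rw [map_zpow, map_zpow, h1, h2, conj_zpow, conj_zpow, ← zpow_mul, ← zpow_mul] at h3
  have e1 : a * m = m' * (a * s) := by rw [hs']; ring
  have e2 : b * n = n' * (b * u) := by rw [hu']; ring
  rw [e1, e2, zpow_mul, zpow_mul _ n', ← (QH m' n').1] at h3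
  have h4 := qk_key QH QS m' n' hm' hn' g h _ _ h3
  rw [e1, e2, h4]
  ring

/-- the sign condition, the second case -/
theorem qk_swap (QH : T_QH) (QS : T_QS) (m n m' n' : ℤ) (β : TP m n ≃* TP m' n')
    (hm' : 2 ≤ |m'|) (hn' : 2 ≤ |n'|) (hm : |m| = |n'|) (hn : |n| = |m'|) (a b : ℤ)
    (g h : TP m' n') (h1 : β (tg true) = g * tg false ^ a * g⁻¹)
    (h2 : β (tg false) = h * tg true ^ b * h⁻¹) : a * m * m' = b * n * n' := by
  obtain ⟨s, hs, hs'⟩ := qk_sg m n' hm
  obtain ⟨u, hu, hu'⟩ := qk_sg n m' hn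
  have h3 : β (tg true ^ m) = β (tg false ^ n) := by rw [(QH m n).1]
  rw [map_zpow, map_zpow, h1, h2, conj_zpow, conj_zpow, ← zpow_mul, ← zpow_mul] at h3
  have e1 : a * m = n' * (a * s) := by rw [hs']; ring
  have e2 : b * n = m' * (b * u) := by rw [hu']; ring
  rw [e1, e2, zpow_mul, zpow_mul _ m', ← (QH m' n').1] at h3
  have h4 := qk_key QH QS m' n' hm' hn' g h _ _ h3
  rw [e1, e2, h4]
  ring

/-- signs with a given value at one letter -/
theorem qk_ch (e : Bool → ℤ) (he : ∀ i, e i = 1 ∨ e i = -1) (i : Bool) (A : Bool → ℤ)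
    (hAB : |A true| = |A false|) :
    ∃ e' : Bool → ℤ, (∀ i, e' i = 1 ∨ e' i = -1) ∧ e' i = e i ∧
      e' true * A true = e' false * A false := by
  rcases abs_eq_abs.1 hAB with h | h
  · exact ⟨fun _ => e i, fun _ => he i, rfl, by simp only [h]⟩
  · refine ⟨fun j => if j = i then e i else - e i, ?_, by simp, ?_⟩
    · intro j
      by_cases hj : j = i
      · simp only [if_pos hj]
        exact he i
      · simp only [if_neg hj]
        rcases he i with h1 | h1 <;> rw [h1] <;> simp
    · cases i <;> simp [h]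

theorem pf_QK (QH : T_QH) (QS : T_QS) (QC : T_QC) : T_QK := by
  intro m n m' n' N N' σ e β hm hn hm' hn' he h
  obtain ⟨Y1, Y2⟩ := QC m n m' n' β hm hn hm' hn'
  -- the two kinds of numbers
  have hA1 : |m| = |m'| → |n| = |n'| → |m * n'| = |n * m'| := by
    intro a b
    rw [abs_mul, abs_mul, a, b, mul_comm]
  have hA2 : |m| = |n'| → |n| = |m'| → |m * m'| = |n * n'| := by
    intro a b
    rw [abs_mul, abs_mul, a, b, mul_comm]
  by_cases hN : ∃ i, N i
  · obtain ⟨i, hi⟩ := hN
    obtain ⟨g, hg⟩ := h ⟨i, hi⟩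
    obtain ⟨Y3, Y4⟩ := Y2 i (σ ⟨i, hi⟩) g (e i) (he i) hg
    obtain ⟨τ, hτ⟩ : ∃ τ, τ = σ.extendSubtype := ⟨_, rfl⟩
    have hτa : ∀ x (hx : N x), τ x = σ ⟨x, hx⟩ := by
      intro x hx
      rw [hτ]
      exact σ.extendSubtype_apply_of_mem x hx
    have hτN : ∀ x, N x ↔ N' (τ x) := by
      intro x
      constructor
      · intro hx
        rw [hτ]
        exact σ.extendSubtype_mem x hx
      · intro hx
        by_contra hc
        rw [hτ] at hx
        exact σ.extendSubtype_not_mem x hc hx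
    have hτi := hτa i hi
    by_cases hb : N (!i)
    · -- both letters are marked
      have hall : ∀ x, N x := by
        intro x
        by_cases hx : x = i
        · rw [hx]; exact hi
        · rw [Bool.eq_not_of_ne hx]; exact hb
      refine ⟨τ, e, he, fun x => ⟨hτa x.1 x.2, rfl⟩, hτN, ?_⟩
      obtain ⟨g1, hg1⟩ := h ⟨true, hall true⟩
      obtain ⟨g2, hg2⟩ := h ⟨false, hall false⟩
      rw [← hτa true (hall true)] at hg1
      rw [← hτa false (hall false)] at hg2
      by_cases hji : i = σ ⟨i, hi⟩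
      · left
        obtain ⟨a, b⟩ := Y3 hji
        have hr := Pool.Agent.H16.ORS.perm_refl τ i (by rw [hτi, ← hji])
        rw [hr] at hg1 hg2
        exact ⟨hr, a, b, qk_refl QH QS m n m' n' β hm' hn' a b _ _ g1 g2 hg1 hg2⟩
      · right
        obtain ⟨a, b⟩ := Y4 hji
        have hr := Pool.Agent.H16.ORS.perm_swap τ i (by rw [hτi]; exact fun h => hji h.symm)
        rw [hr, Equiv.swap_apply_left] at hg1
        rw [hr, Equiv.swap_apply_right] at hg2
        exact ⟨hr, a, b, qk_swap QH QS m n m' n' β hm' hn' a b _ _ g1 g2 hg1 hg2⟩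
    · -- one letter is marked
      have hone : ∀ x, N x → x = i := by
        intro x hx
        by_contra hc
        rw [Bool.eq_not_of_ne hc] at hx
        exact hb hx
      by_cases hji : i = σ ⟨i, hi⟩
      · obtain ⟨a, b⟩ := Y3 hji
        obtain ⟨e', he', hei, hsg⟩ := qk_ch e he i
          (fun j => if j = true then m * n' else n * m') (hA1 a b)
        refine ⟨τ, e', he', ?_, hτN, Or.inl
          ⟨Pool.Agent.H16.ORS.perm_refl τ i (by rw [hτi, ← hji]), a, b, ?_⟩⟩
        · rintro ⟨x, hx⟩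
          refine ⟨hτa x hx, ?_⟩
          show e' x = e x
          rw [hone x hx]
          exact hei
        · have h5 : e' true * (m * n') = e' false * (n * m') := hsg
          rw [mul_assoc, mul_assoc]
          exact h5
      · obtain ⟨a, b⟩ := Y4 hji
        obtain ⟨e', he', hei, hsg⟩ := qk_ch e he i
          (fun j => if j = true then m * m' else n * n') (hA2 a b)
        refine ⟨τ, e', he', ?_, hτN, Or.inr
          ⟨Pool.Agent.H16.ORS.perm_swap τ i (by rw [hτi]; exact fun h => hji h.symm), a, b, ?_⟩⟩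
        · rintro ⟨x, hx⟩
          refine ⟨hτa x hx, ?_⟩
          show e' x = e x
          rw [hone x hx]
          exact hei
        · have h5 : e' true * (m * m') = e' false * (n * n') := hsg
          rw [mul_assoc, mul_assoc]
          exact h5
  · have hN1 : ∀ i, ¬ N i := fun i hi => hN ⟨i, hi⟩
    have hN2 : ∀ i, ¬ N' i := fun i hi => hN1 _ (σ.symm ⟨i, hi⟩).2
    rcases Y1 with ⟨a, b⟩ | ⟨a, b⟩
    · obtain ⟨e', he', -, hsg⟩ := qk_ch e he true
        (fun j => if j = true then m * n' else n * m') (hA1 a b)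
      refine ⟨Equiv.refl Bool, e', he', ?_, ?_, Or.inl ⟨rfl, a, b, ?_⟩⟩
      · rintro ⟨x, hx⟩
        exact absurd hx (hN1 x)
      · intro x
        exact ⟨fun hx => absurd hx (hN1 _), fun hx => absurd hx (hN2 _)⟩
      · have h5 : e' true * (m * n') = e' false * (n * m') := hsg
        rw [mul_assoc, mul_assoc]
        exact h5
    · obtain ⟨e', he', -, hsg⟩ := qk_ch e he true
        (fun j => if j = true then m * m' else n * n') (hA2 a b)
      refine ⟨Equiv.swap true false, e', he', ?_, ?_, Or.inr ⟨rfl, a, b, ?_⟩⟩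
      · rintro ⟨x, hx⟩
        exact absurd hx (hN1 x)
      · intro x
        exact ⟨fun hx => absurd hx (hN1 _), fun hx => absurd hx (hN2 _)⟩
      · have h5 : e' true * (m * m') = e' false * (n * n') := hsg
        rw [mul_assoc, mul_assoc]
        exact h5

end Pool.Agent.H45.ORS
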